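import Pool.Agent.MP_aa2243_gt.Blocked

/-!
A rigid folding of the two-vertex pattern `G0` from the unfolded state along which every one of
the seven creases is folded.
-/

set_option autoImplicit false

open Set Real Filter Topology

namespace Pool.Agent.MP_aa2243_gt.AllCreases

lemma arcsin_angle {x y l : ℝ} (hl : 0 < l) (h : x ^ 2 * l ^ 2 + y ^ 2 = (l ^ 2) ^ 3)
    (hx : 0 ≤ x) :
    x = l ^ 2 * cos (arcsin (y / l ^ 3)) ∧ y = l ^ 3 * sin (arcsin (y / l ^ 3)) := by
  have h1 : (x / l ^ 2) ^ 2 + (y / l ^ 3) ^ 2 = 1 := by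
    field_simp
    linarith
  have h2 : (y / l ^ 3) ^ 2 ≤ 1 := by nlinarith [sq_nonneg (x / l ^ 2)]
  have h3 := abs_le.1 ((sq_le_one_iff_abs_le_one _).1 h2)
  constructor
  · rw [cos_arcsin, show 1 - (y / l ^ 3) ^ 2 = (x / l ^ 2) ^ 2 by linarith,
      Real.sqrt_sq (by positivity)]
    field_simp
  · rw [sin_arcsin h3.1 h3.2]
    field_simp

lemma abs_min_le (a b : ℝ) : |min a 0 - min b 0| ≤ |a - b| := by
  rcases le_total a 0 with h | h <;> rcases le_total b 0 with k | k
  · rw [min_eq_left h, min_eq_left k]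
  · rw [min_eq_left h, min_eq_right k, abs_of_nonpos (by linarith), abs_of_nonpos (by linarith)]
    linarith
  · rw [min_eq_right h, min_eq_left k, abs_of_nonneg (by linarith), abs_of_nonneg (by linarith)]
    linarith
  · rw [min_eq_right h, min_eq_right k, sub_self, abs_zero]
    exact abs_nonneg _

lemma inj {c s u d e : ℝ} (hc0 : 9 / 10 ≤ c) (hc1 : c ≤ 1) (hu0 : 0 ≤ u) (hu1 : u ≤ 1 / 10) :
    Function.Injective (foldMap (p3 1 0 0) (p3 0 1 0) (p3 0 c (-s)) (p3 (1 - u) (-u / 3) d)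
      (p3 (1 - u) (u / 2) e)) := by
  intro p q h
  have e0 := congrArg (· 0) h
  have e1 := congrArg (· 1) h
  simp only [foldMap, PiLp.add_apply, PiLp.sub_apply, PiLp.smul_apply, smul_eq_mul, p3_0,
    p3_1] at e0 e1
  have m1 := abs_le.1 (abs_max_sub_max_le_abs (p 1) (q 1) 0)
  have m2 := abs_le.1 (abs_max_sub_max_le_abs (-p 1) (-q 1) 0)
  rw [show -p 1 - -q 1 = -(p 1 - q 1) by ring, abs_neg] at m2
  have a0 := le_abs_self (p 0 - q 0)
  have a0' := neg_abs_le (p 0 - q 0)
  set A := |p 0 - q 0| with hA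
  set B := |p 1 - q 1| with hB
  have hA0 : 0 ≤ A := abs_nonneg _
  have hB0 : 0 ≤ B := abs_nonneg _
  have f1 : |fU p - fU q| ≤ A + B := by
    unfold fU
    rw [abs_le]
    constructor <;> linarith [m1.1, m1.2, m2.1, m2.2]
  have f2 : |fV p - fV q| ≤ A + B := by
    unfold fV
    rw [abs_le]
    constructor <;> linarith [m1.1, m1.2, m2.1, m2.2]
  have g1 := abs_le.1 ((abs_min_le (fU p) (fU q)).trans f1)
  have g2 := abs_le.1 ((abs_max_sub_max_le_abs (fV p) (fV q) 0).trans f2)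
  set x := min (fU p) 0 - min (fU q) 0 with hx
  set y := max (fV p) 0 - max (fV q) 0 with hy
  set z := max (-p 1) 0 - max (-q 1) 0 with hz
  have k : ∀ t : ℝ, max t 0 = t + max (-t) 0 := by
    intro t
    rcases le_total 0 t with h | h
    · rw [max_eq_left h, max_eq_right (by linarith)]; ring
    · rw [max_eq_right h, max_eq_left (by linarith)]; ring
  rw [k (p 1), k (q 1)] at e1
  have E0 : p 0 - q 0 = u * x + u * y := by rw [hx, hy]; linarith
  have E1 : p 1 - q 1 = -((1 - c) * z) + u * x / 3 - u * y / 2 := by rw [hx, hy, hz]; linarith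
  have b1 : |u * x| ≤ (A + B) / 10 := by
    rw [abs_le]; constructor <;> nlinarith [g1.1, g1.2]
  have b2 : |u * y| ≤ (A + B) / 10 := by
    rw [abs_le]; constructor <;> nlinarith [g2.1, g2.2]
  have b3 : |(1 - c) * z| ≤ B / 10 := by
    rw [abs_le]; constructor <;> nlinarith [m2.1, m2.2]
  rw [abs_le] at b1 b2 b3
  have c0 : A ≤ (A + B) / 5 := by
    rw [hA, abs_le]; rw [← hA]; constructor <;> linarith [b1.1, b1.2, b2.1, b2.2]
  have c1 : B ≤ B / 10 + (A + B) / 10 := by
    rw [hB, abs_le]; rw [← hB]; constructor <;> linarith [b1.1, b1.2, b2.1, b2.2, b3.1, b3.2]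
  have hA1 : A = 0 := by linarith
  have hB1 : B = 0 := by linarith
  exact P2_ext (sub_eq_zero.1 (abs_eq_zero.1 hA1)) (sub_eq_zero.1 (abs_eq_zero.1 hB1))

/-- the lengths of the four oblique creases -/
noncomputable def l1 : ℝ := ‖p2 (-4 / 3) 1 - p2 (-1) 0‖
noncomputable def l3 : ℝ := ‖p2 (-3 / 2) (-1) - p2 (-1) 0‖
noncomputable def l4 : ℝ := ‖p2 (3 / 2) 1 - p2 1 0‖
noncomputable def l6 : ℝ := ‖p2 (4 / 3) (-1) - p2 1 0‖

lemma pos_of_sq {v : P2} {c : ℝ} (hv : ‖v‖ ^ 2 = c) (hc : 0 < c) : 0 < ‖v‖ := by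
  rcases (norm_nonneg v).lt_or_eq with h | h
  · exact h
  · rw [← h] at hv; linarith

lemma l1_sq : l1 ^ 2 = 10 / 9 := by rw [l1, norm_p2_sub]; norm_num
lemma l3_sq : l3 ^ 2 = 5 / 4 := by rw [l3, norm_p2_sub]; norm_num
lemma l4_sq : l4 ^ 2 = 5 / 4 := by rw [l4, norm_p2_sub]; norm_num
lemma l6_sq : l6 ^ 2 = 10 / 9 := by rw [l6, norm_p2_sub]; norm_num
lemma l1_pos : 0 < l1 := pos_of_sq l1_sq (by norm_num)
lemma l3_pos : 0 < l3 := pos_of_sq l3_sq (by norm_num)
lemma l4_pos : 0 < l4 := pos_of_sq l4_sq (by norm_num)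
lemma l6_pos : 0 < l6 := pos_of_sq l6_sq (by norm_num)

lemma state {r u d e : ℝ} (h0 : 0 ≤ r) (h1 : r ≤ 1) (hc0 : 9 / 10 ≤ cos r) (hu0 : 0 ≤ u)
    (hu1 : u ≤ 1 / 10) (hU : (1 - u) ^ 2 + u ^ 2 / 9 + d ^ 2 = 1)
    (hUB : -u / 3 * cos r - d * sin r = u / 2) (hV : (1 - u) ^ 2 + u ^ 2 / 4 + e ^ 2 = 1)
    (hVB : u / 2 * cos r - e * sin r = -u / 3)
    (hd : (1 - u) * sin r - u * sin r / 9 + d * (1 / 2 + cos r / 3) = -sin r)
    (he : (1 - u) * sin r - u * sin r / 4 - e * (1 / 3 + cos r / 2) = -sin r) :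
    (![r, arcsin (-(100 / 81) * d / l1 ^ 3), -r,
      arcsin (-(25 / 16) * (d * cos r - u * sin r / 3) / l3 ^ 3), arcsin (25 / 16 * e / l4 ^ 3), -r,
      arcsin (100 / 81 * (u * sin r / 2 + e * cos r) / l6 ^ 3)] : Fin 7 → ℝ) ∈
      G0.embeddedStates := by
  have hpi := pi_gt_three
  have hcs := cos_sq_add_sin_sq r
  set c := cos r with hc
  set s := sin r with hs
  set P := p3 1 0 0 with hP
  set QA := p3 0 1 0 with hQA
  set QB := p3 0 c (-s) with hQB
  set PU := p3 (1 - u) (-u / 3) d with hPU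
  set PV := p3 (1 - u) (u / 2) e with hPV
  have aA := affA P QA QB PU PV
  have aB := affB P QA QB PU PV
  have aU1 := affU1 P QA QB PU PV
  have aU2 := affU2 P QA QB PU PV
  have aV1 := affV1 P QA QB PU PV
  have aV2 := affV2 P QA QB PU PV
  have hI : ∀ t : ℝ, arcsin t ∈ Ioo (-π) π := fun t =>
    ⟨by linarith [neg_pi_div_two_le_arcsin t], by linarith [arcsin_le_pi_div_two t]⟩
  have n3 : (u / 2) ^ 2 + (d * c - u * s / 3) ^ 2 = u ^ 2 / 9 + d ^ 2 := by
    rw [← hUB]; linear_combination (u ^ 2 / 9 + d ^ 2) * hcs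
  have n6 : (-u / 3) ^ 2 + (u * s / 2 + e * c) ^ 2 = u ^ 2 / 4 + e ^ 2 := by
    rw [← hVB]; linear_combination (u ^ 2 / 4 + e ^ 2) * hcs
  have t1 := arcsin_angle (x := 10 / 9 - 100 / 81 * u) (y := -(100 / 81) * d) l1_pos
    (by rw [l1_sq]; linear_combination (10000 / 6561) * hU) (by linarith)
  have t3 := arcsin_angle (x := 5 / 4 - 25 / 16 * u) (y := -(25 / 16) * (d * c - u * s / 3)) l3_pos
    (by rw [l3_sq]; linear_combination (625 / 256) * hU + (625 / 256) * n3) (by linarith)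
  have t4 := arcsin_angle (x := 5 / 4 - 25 / 16 * u) (y := 25 / 16 * e) l4_pos
    (by rw [l4_sq]; linear_combination (625 / 256) * hV) (by linarith)
  have t6 := arcsin_angle (x := 10 / 9 - 100 / 81 * u) (y := 100 / 81 * (u * s / 2 + e * c)) l6_pos
    (by rw [l6_sq]; linear_combination (10000 / 6561) * hV + (10000 / 6561) * n6) (by linarith)
  refine ⟨fun i => ?_, foldMap P QA QB PU PV, ⟨(foldMap_cont _ _ _ _ _).continuousOn,
    foldMap_iso _ _ _ _ _ ?_ ?_ ?_ ?_ ?_ ?_, fun i => ?_⟩,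
    (inj hc0 (cos_le_one r) hu0 hu1).injOn⟩
  · fin_cases i
    · exact ⟨by simp; linarith, by simp; linarith⟩
    · exact hI _
    · exact ⟨by simp; linarith, by simp; linarith⟩
    · exact hI _
    · exact hI _
    · exact ⟨by simp; linarith, by simp; linarith⟩
    · exact hI _
  all_goals try
    simp only [ON, inner3, hP, hQA, hQB, hPU, hPV, PiLp.add_apply, PiLp.sub_apply,
      PiLp.smul_apply, smul_eq_mul, p3_0, p3_1, p3_2]
  · refine ⟨?_, ?_, ?_⟩ <;> norm_num
  · refine ⟨by norm_num, by linear_combination hcs, by norm_num⟩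
  · exact ⟨by linear_combination hU, by linear_combination (1 / 9) * hU,
      by linear_combination (1 / 3) * hU⟩
  · exact ⟨by linear_combination hU, by linear_combination hcs + (1 / 4) * hU - hUB,
      by linear_combination hUB - (1 / 2) * hU⟩
  · exact ⟨by linear_combination hV, by linear_combination (1 / 4) * hV,
      by linear_combination (-1 / 2) * hV⟩
  · exact ⟨by linear_combination hV, by linear_combination hcs + (1 / 9) * hV + (2 / 3) * hVB,
      by linear_combination hVB + (1 / 3) * hV⟩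
  · fin_cases i
    · refine (fold0 aA aB).2 ?_
      simp only [inner3, det3_eq, hP, hQA, hQB, p3_0, p3_1, p3_2]
      exact ⟨by simp [hc], by simp [hs]⟩
    · refine (fold1 aU1 aA).2 ⟨Eq.trans ?_ t1.1, Eq.trans ?_ t1.2⟩ <;>
        simp only [inner3, det3_eq, hP, hQA, hPU, PiLp.add_apply, PiLp.sub_apply,
          PiLp.smul_apply, smul_eq_mul, p3_0, p3_1, p3_2] <;> ring
    · refine (fold2 (ρ := -r) aU2 aU1).2 ?_
      rw [cos_neg, sin_neg, ← hc, ← hs]
      simp only [inner3, det3_eq, hP, hQA, hQB, hPU, PiLp.add_apply, PiLp.sub_apply,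
          PiLp.smul_apply, smul_eq_mul, p3_0, p3_1, p3_2]
      exact ⟨by linear_combination (1 / 3) * hUB - (1 / 6) * hU, by linear_combination hd⟩
    · refine (fold3 aB aU2).2 ⟨Eq.trans ?_ t3.1, Eq.trans ?_ t3.2⟩ <;>
        simp only [inner3, det3_eq, hP, hQB, hPU, PiLp.add_apply, PiLp.sub_apply,
          PiLp.smul_apply, smul_eq_mul, p3_0, p3_1, p3_2]
      · linear_combination (1 / 4) * hcs - (5 / 8) * hUB
      · ring
    · refine (fold4 aA aV1).2 ⟨Eq.trans ?_ t4.1, Eq.trans ?_ t4.2⟩ <;>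
        simp only [inner3, det3_eq, hP, hQA, hPV, PiLp.add_apply, PiLp.sub_apply,
          PiLp.smul_apply, smul_eq_mul, p3_0, p3_1, p3_2] <;> ring
    · refine (fold5 (ρ := -r) aV1 aV2).2 ?_
      rw [cos_neg, sin_neg, ← hc, ← hs]
      simp only [inner3, det3_eq, hP, hQA, hQB, hPV, PiLp.add_apply, PiLp.sub_apply,
          PiLp.smul_apply, smul_eq_mul, p3_0, p3_1, p3_2]
      exact ⟨by linear_combination (-1 / 2) * hVB - (1 / 6) * hV, by linear_combination he⟩
    · refine (fold6 aV2 aB).2 ⟨Eq.trans ?_ t6.1, Eq.trans ?_ t6.2⟩ <;>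
        simp only [inner3, det3_eq, hP, hQB, hPV, PiLp.add_apply, PiLp.sub_apply,
          PiLp.smul_apply, smul_eq_mul, p3_0, p3_1, p3_2]
      · linear_combination (1 / 9) * hcs + (10 / 27) * hVB
      · ring

/-- the reciprocal of the common denominator -/
noncomputable def kk (r : ℝ) : ℝ := 1 / (49 + 12 * cos r - 36 * cos r ^ 2)

lemma den_pos (r : ℝ) : 0 < 49 + 12 * cos r - 36 * cos r ^ 2 := by
  nlinarith [cos_le_one r, neg_one_le_cos r]

lemma kk_cont : Continuous kk := by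
  unfold kk
  exact continuous_const.div (by fun_prop) fun r => (den_pos r).ne'

/-- the angles along the branch on which all creases fold -/
noncomputable def ang (r : ℝ) : Fin 7 → ℝ :=
  ![r, arcsin (-(100 / 81) * (-12 * sin r * (2 * cos r + 3) * kk r) / l1 ^ 3), -r,
    arcsin (-(25 / 16) * ((-12 * sin r * (2 * cos r + 3) * kk r) * cos r -
      (72 * sin r ^ 2 * kk r) * sin r / 3) / l3 ^ 3),
    arcsin (25 / 16 * (12 * sin r * (3 * cos r + 2) * kk r) / l4 ^ 3), -r,
    arcsin (100 / 81 * ((72 * sin r ^ 2 * kk r) * sin r / 2 +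
      (12 * sin r * (3 * cos r + 2) * kk r) * cos r) / l6 ^ 3)]

lemma ang_cont : Continuous ang := by
  have := kk_cont
  have ha := continuous_arcsin
  refine continuous_pi fun i => ?_
  fin_cases i <;> simp only [ang] <;> simp <;> fun_prop

lemma cos_ge {r : ℝ} (h0 : 0 ≤ r) (h1 : r ≤ 1 / 10) : 99 / 100 ≤ cos r := by
  nlinarith [one_sub_sq_div_two_le_cos (x := r)]

lemma ang_mem {r : ℝ} (h0 : 0 ≤ r) (h1 : r ≤ 1 / 10) : ang r ∈ G0.embeddedStates := by
  have hcs := cos_sq_add_sin_sq r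
  have hc := cos_ge h0 h1
  have hc1 := cos_le_one r
  have hk0 : 0 < kk r := one_div_pos.2 (den_pos r)
  have hk : kk r * (49 + 12 * cos r - 36 * cos r ^ 2) = 1 := one_div_mul_cancel (den_pos r).ne'
  have hk1 : kk r * (40 * sin r ^ 2 + (2 * cos r + 3) ^ 2) = 1 := by
    linear_combination hk + 40 * kk r * hcs
  have hk2 : kk r * (45 * sin r ^ 2 + (3 * cos r + 2) ^ 2) = 1 := by
    linear_combination hk + 45 * kk r * hcs
  have hk3 : kk r ≤ 1 / 25 := by
    have : 25 ≤ 49 + 12 * cos r - 36 * cos r ^ 2 := by nlinarith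
    exact one_div_le_one_div_of_le (by norm_num) this
  have hs : sin r ^ 2 ≤ 1 / 50 := by nlinarith
  refine state h0 (by linarith) (by linarith) (by positivity) (by nlinarith [sq_nonneg (sin r)])
    ?_ ?_ ?_ ?_ ?_ ?_
  · linear_combination 144 * sin r ^ 2 * kk r * hk1
  · ring
  · linear_combination 144 * sin r ^ 2 * kk r * hk2
  · ring
  · linear_combination (-2 * sin r) * hk1
  · linear_combination (-2 * sin r) * hk2

lemma ang_ne {r : ℝ} (h0 : 0 < r) (h1 : r ≤ 1 / 10) (i : Fin 7) : ang r i ≠ 0 := by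
  have hc : 0 < cos r := by linarith [cos_ge h0.le h1]
  have hs : 0 < sin r := sin_pos_of_pos_of_lt_pi h0 (by linarith [pi_gt_three])
  have hk0 : 0 < kk r := one_div_pos.2 (den_pos r)
  have p1 := l1_pos
  have p3 := l3_pos
  have p4 := l4_pos
  have p6 := l6_pos
  have key : ∀ t : ℝ, 0 < t → arcsin t ≠ 0 := fun t ht => (arcsin_pos.2 ht).ne'
  fin_cases i
  · exact h0.ne'
  · refine key _ (div_pos ?_ (by positivity))
    have : 0 < sin r * (2 * cos r + 3) * kk r := by positivity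
    linarith
  · exact neg_ne_zero.2 h0.ne'
  · refine key _ (div_pos ?_ (by positivity))
    have h2 : 0 < sin r * (2 * cos r + 3) * kk r * cos r := by positivity
    have h3 : 0 < sin r ^ 2 * kk r * sin r := by positivity
    linarith
  · exact key _ (by positivity)
  · exact neg_ne_zero.2 h0.ne'
  · exact key _ (by positivity)

/-- a rigid folding from the unfolded state, through embedded states, that folds every crease -/
theorem all_creases : ∃ γ : unitInterval → (Fin 7 → ℝ), Continuous γ ∧ γ 0 = 0 ∧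
    (∀ t, γ t ∈ G0.embeddedStates) ∧ ∀ t, t ≠ 0 → ∀ e, γ t e ≠ 0 := by
  refine ⟨fun t => ang (t / 10), ang_cont.comp (by fun_prop), ?_,
    fun t => ang_mem (by linarith [t.2.1]) (by linarith [t.2.2]), fun t ht e => ang_ne ?_
      (by linarith [t.2.2]) e⟩
  · ext e
    fin_cases e <;> simp [ang]
  · have : 0 < (t : ℝ) := unitInterval.pos_iff_ne_zero.2 ht
    linarith

end Pool.Agent.MP_aa2243_gt.AllCreases
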